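import Pool.Graph.R_pool_sql_team_seeded_b0a926ef.R887.DivB
import Pool.Graph.R_pool_sql_team_seeded_63374d34.N110.DV.Main

/-!
# Nef divisors on varieties of irregularity zero with multi-valued maps of small degree are torsion

Let `X` be a normal projective variety of dimension `n ≥ 1` and of irregularity zero (for instance a klt
variety with `K_X ~_ℚ 0` and `H¹(X, O_X) = 0`), with hyperplane class `H`, and `L` a nef `ℚ`-Cartier
divisor on `X`.  Suppose that for every `ε > 0` there are a normal projective variety `X'` of dimension
`n`, any `ℚ`-divisor `D'` on `X'` of size `D' ≤ M H'`, and a multi-valued map `X' ← X'' → X` (`p`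
generically finite, ramified anywhere, `f` dominant) with `f^* L ≤ p^* D'` over the prime divisors of
`X'` and `(f^* H) ^ (n - 1) · p^* H' ≤ c deg f`, such that `c M ≤ ε`.  Then `L` is torsion: `m L` is the
divisor of a rational function for some `m ≥ 1`, in particular `L` is semiample.

Nothing is assumed about the effectivity of `L`.

Examples.

* `X' = X`, `D' = μ ^ k L`, `p = id` and `f = g ^ k` the iterates of one dominant rational self-map `g` of
  `X`, invertible or not, with `g^* L ≤ μ L`: the condition is `μ λ_(n-1) (g) < λ_n (g) = deg g`, the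
  topological degree is larger than `μ` times the last but one dynamical degree.
* One pair of a variety `X'` of any irregularity and a divisor `D'` with `- D'` pseudo-effective (then
  `M = 0`): all varieties `X` of irregularity zero which are dominated by `X'`, or are in correspondence
  with it, in such a way that the pull-back of `L` is at most the one of `D'`.

Proof: the degree inequality for multi-valued maps shows that `L · H ^ (n - 1) = 0`; since `L` is nef and
the irregularity is zero, `L` is torsion.
-/

set_option autoImplicit false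

open FF Pool.Agent.W602.GT Pool.Agent.Y172 Pool.Agent.R887 Pool.Agent.N110 Pool.Agent.N110.DV

/-- Let `X` be a normal projective variety of dimension `n ≥ 1` and of irregularity zero, with generic
point `y`, and `D` a nef `ℚ`-Cartier divisor on `X`. Suppose that for all `ε > 0` there are a normal
projective variety `X'` of dimension `n`, with generic point `y'`, a `ℚ`-divisor `D'` on `X'` and a
multi-valued map `X' ← X'' → X`, that is a variety `X''` with a generically finite rational map `p` to
`X'` (given by `ψ`) and a dominant rational map `f` to `X` (given by `φ`), such that, over the prime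
divisors of `X'`, `f^* D` is at most `p^* D'` up to `ℚ`-linear equivalence on `X''`, and numbers `M`, `c`
such that `M H' - D'` is pseudo-effective (`H'` a hyperplane section of `X'`), the intersection number
`(f ^* H) ^ (n - 1) · (p ^* H')` is at most `c deg f`, and `c M ≤ ε`. Then `D` is torsion: `m D` is the
divisor of a rational function for some `m ≥ 1`. In particular `D` is semiample. -/
theorem Pool.Agent.Results.MP_cda8c3_ag.SourcesTorsion.result
    {K : Type} [Field K] [Algebra ℂ K] {N n : ℕ} {y : Fin (N + 1) → K} (hy : NormalModel y)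
    (hn : Algebra.trdeg ℂ K = n) (hn0 : 0 < n) (hq : IrregularityZero y) {D : Place ℂ K → ℚ}
    (hfin : {P | IsPrimeDivisor y P ∧ D P ≠ 0}.Finite) (hD : IsQCartier y D) (hnef : NefD y n D)
    (h : ∀ ε : ℝ, 0 < ε → ∃ (K' L : Type) (_ : Field K') (_ : Algebra ℂ K') (_ : Field L)
      (_ : Algebra ℂ L) (N' : ℕ) (y' : Fin (N' + 1) → K') (D' : Place ℂ K' → ℚ)
      (φ : K →ₐ[ℂ] L) (ψ : K' →ₐ[ℂ] L) (M c : ℝ), NormalModel y' ∧ Algebra.trdeg ℂ K' = n ∧
      HyperplaneGe y' D' M ∧ FiniteDimensional ψ.fieldRange L ∧ DivisorPullBackLe φ ψ D y' D' ∧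
      MultiDegreeLe φ ψ y y' (n - 1) 1 c ∧ c * M ≤ ε) :
    ∃ m : ℕ, 1 ≤ m ∧ ∃ g : K, g ≠ 0 ∧ ∀ P, IsPrimeDivisor y P → (P.ord g : ℚ) = m * D P := by
  have key : DivisorProductLe y n D 1 0 := by
    refine DivisorProductLe.of_forall fun ε hε => ?_
    obtain ⟨K', L, _, _, _, _, N', y', D', φ, ψ, M, c, hy', hn', hM, hψ, hpull, hc, hcε⟩ := h ε hε
    exact ⟨_, by rw [← pow_one M] at hcε; linarith,
      divisor_degree_le hy' hn' hM hy hn hD φ ψ hψ hpull hn0 hc⟩
  have hnu : NuLt y n D 1 := by
    intro A hA ε hε
    obtain ⟨t, ht, m₀, h1⟩ := key A hA ε hε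
    refine ⟨t, ht, m₀, fun m b hm hb u hu g hg hg0 => ?_⟩
    have h2 := h1 m b hm hb u hu g (fun i => by
      by_cases h0 : g i = 0
      · exact Or.inl h0
      · exact Or.inr fun P hP => (hg i P hP).resolve_left h0) hg0
    rwa [zero_add] at h2
  obtain ⟨m, hm, g, hg0, hg⟩ := trivialD hy hn hn0 hfin hq hnef hnu
  refine ⟨m, hm, g⁻¹, inv_ne_zero hg0, fun P hP => ?_⟩
  have h4 := hg P hP
  rw [P.ord_inv]
  push_cast
  linarith
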